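import Mathlib

set_option autoImplicit false

namespace Pool.Agent.Results.MP_cb2a9f_co.AdmissibleNotAll

open Set
open scoped Matroid

universe u

variable {α : Type u}

/-- `(W, I)` is a pre-independence space. -/
def PreIndependenceSpace (W : Set α) (I : Set (Set α)) : Prop :=
  (∀ X ∈ I, X ⊆ W) ∧ ∅ ∈ I ∧ (∀ X ∈ I, ∀ Y, Y ⊆ X → Y ∈ I) ∧
    ∀ I₁ ∈ I, ∀ I₂ ∈ I, I₁.Finite → I₂.Finite → I₁.ncard < I₂.ncard →
      ∃ e ∈ I₂ \ I₁, I₁ ∪ {e} ∈ I

/-- `(W, I)` is an independence space. -/
def IndependenceSpace (W : Set α) (I : Set (Set α)) : Prop :=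
  PreIndependenceSpace W I ∧
    ∀ Y, Y ⊆ W → (∀ Z, Z ⊆ Y → Z.Finite → Z ∈ I) → Y ∈ I

/-- A basis of a family of sets is a maximal member. -/
def IsBasisOf (I : Set (Set α)) (B : Set α) : Prop :=
  B ∈ I ∧ ∀ X ∈ I, B ⊆ X → X = B

/-- The restriction `I|Z`. -/
def restr (I : Set (Set α)) (Z : Set α) : Set (Set α) := {Y | Y ⊆ Z ∧ Y ∈ I}

/-- `(W, I)` is a B-matroid. -/
def BMatroid (W : Set α) (I : Set (Set α)) : Prop :=
  (∀ X ∈ I, X ⊆ W) ∧ ∅ ∈ I ∧ (∀ X ∈ I, ∀ Y, Y ⊆ X → Y ∈ I) ∧
    ∀ X, X ⊆ W →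
      (∀ T ∈ I, T ⊆ X → ∃ B, IsBasisOf (restr I X) B ∧ T ⊆ B) ∧
      (∀ B₁ B₂, IsBasisOf (restr I X) B₁ → IsBasisOf (restr I X) B₂ → ∀ x ∈ B₁ \ B₂,
        ∃ y ∈ B₂ \ B₁, IsBasisOf (restr I X) ((B₁ \ {x}) ∪ {y}))

/-- The contraction `I.Z`, computed with the set `B` (a basis of `I|(W \ Z)`). -/
def contr (I : Set (Set α)) (Z B : Set α) : Set (Set α) := {Y | Y ⊆ Z ∧ Y ∪ B ∈ I}

/-- The dual `I*` of a family on the ground set `W`. -/
def dual (W : Set α) (I : Set (Set α)) : Set (Set α) :=
  {X | X ⊆ W ∧ ∃ B, IsBasisOf I B ∧ B ⊆ W \ X}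

/-- `D` is an admissible system on the infinite set `S`, here the whole type `α`;
`D W` is the set of families attached to `W ⊆ S`. -/
structure Admissible (D : Set α → Set (Set (Set α))) : Prop where
  pre : ∀ W, ∀ I ∈ D W, PreIndependenceSpace W I
  restr_mem : ∀ W Z, Z ⊆ W → ∀ I ∈ D W, restr I Z ∈ D Z
  contr_exists : ∀ W Z, Z ⊆ W → ∀ I ∈ D W, ∃ B, IsBasisOf (restr I (W \ Z)) B
  contr_indep : ∀ W Z, Z ⊆ W → ∀ I ∈ D W, ∀ B B',
    IsBasisOf (restr I (W \ Z)) B → IsBasisOf (restr I (W \ Z)) B' → contr I Z B = contr I Z B'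
  contr_mem : ∀ W Z, Z ⊆ W → ∀ I ∈ D W, ∀ B, IsBasisOf (restr I (W \ Z)) B → contr I Z B ∈ D Z
  dual_mem : ∀ W, ∀ I ∈ D W, dual W I ∈ D W
  dual_dual : ∀ W, ∀ I ∈ D W, dual W (dual W I) = I

/-! ### The family of independent sets of a matroid -/

def ind (M : Matroid α) : Set (Set α) := {X | M.Indep X}

theorem mem_ind {M : Matroid α} {X : Set α} : X ∈ ind M ↔ M.Indep X := Iff.rfl

theorem isBasisOf_ind {M : Matroid α} {B : Set α} : IsBasisOf (ind M) B ↔ M.IsBase B := by
  rw [Matroid.isBase_iff_maximal_indep]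
  constructor
  · rintro ⟨h1, h2⟩
    refine ⟨h1, fun X hX hBX => ?_⟩
    rw [h2 X hX hBX]
  · rintro h
    exact ⟨h.prop, fun X hX hBX => (h.eq_of_subset hX hBX).symm⟩

theorem restr_ind (M : Matroid α) (Z : Set α) : restr (ind M) Z = ind (M ↾ Z) := by
  ext Y
  simp only [restr, ind, mem_ofPred_eq, Matroid.restrict_indep_iff]
  tauto

theorem isBasisOf_restr {M : Matroid α} {X B : Set α} (hX : X ⊆ M.E) :
    IsBasisOf (restr (ind M) X) B ↔ M.IsBasis B X := by
  rw [restr_ind, isBasisOf_ind, Matroid.isBase_restrict_iff hX]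

theorem contr_ind {M : Matroid α} {Z B : Set α} (hZ : Z ⊆ M.E) (hB : M.IsBasis B (M.E \ Z)) :
    contr (ind M) Z B = ind (M ／ (M.E \ Z)) := by
  ext Y
  simp only [contr, ind, mem_ofPred_eq]
  rw [hB.contract_indep_iff]
  constructor
  · rintro ⟨h1, h2⟩
    refine ⟨h2, ?_⟩
    rw [Set.disjoint_left]
    intro x hx hxY
    exact hx.2 (h1 hxY)
  · rintro ⟨h1, h2⟩
    refine ⟨?_, h1⟩
    intro x hx
    by_contra hxZ
    have hxE : x ∈ M.E := h1.subset_ground (Or.inl hx)
    exact Set.disjoint_left.1 h2 ⟨hxE, hxZ⟩ hx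

theorem dual_ind (M : Matroid α) : dual M.E (ind M) = ind M✶ := by
  ext X
  simp only [dual, ind, mem_ofPred_eq, Matroid.dual_indep_iff_exists']
  refine and_congr_right fun hX => exists_congr fun B => ?_
  rw [show ({X | M.Indep X} : Set (Set α)) = ind M from rfl, isBasisOf_ind]
  refine and_congr_right fun hB => ?_
  constructor
  · intro h
    rw [Set.disjoint_left]
    intro x hx hxB
    exact (h hxB).2 hx
  · intro h x hx
    exact ⟨hB.subset_ground hx, fun hxX => Set.disjoint_left.1 h hxX hx⟩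

theorem pre_ind (M : Matroid α) : PreIndependenceSpace M.E (ind M) := by
  refine ⟨fun X hX => Matroid.Indep.subset_ground hX, M.empty_indep,
    fun X hX Y hY => Matroid.Indep.subset hX hY, ?_⟩
  intro I₁ h1 I₂ h2 f1 f2 hlt
  have : I₁.encard < I₂.encard := by
    rw [← f1.cast_ncard_eq, ← f2.cast_ncard_eq]
    exact_mod_cast hlt
  obtain ⟨e, he, hI⟩ := Matroid.Indep.augment h1 h2 this
  exact ⟨e, he, by rw [Set.union_singleton]; exact hI⟩

theorem bMatroid_ind (M : Matroid α) : BMatroid M.E (ind M) := by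
  refine ⟨fun X hX => Matroid.Indep.subset_ground hX, M.empty_indep,
    fun X hX Y hY => Matroid.Indep.subset hX hY, ?_⟩
  intro X hX
  constructor
  · intro T hT hTX
    obtain ⟨J, hJ, hTJ⟩ := Matroid.Indep.subset_isBasis_of_subset hT hTX
    exact ⟨J, (isBasisOf_restr hX).2 hJ, hTJ⟩
  · intro B₁ B₂ h1 h2 x hx
    rw [restr_ind, isBasisOf_ind] at h1 h2
    obtain ⟨y, hy, hB⟩ := h1.exchange h2 hx
    refine ⟨y, hy, ?_⟩
    rw [restr_ind, isBasisOf_ind, Set.union_singleton]
    exact hB

theorem restrict_finitary {M : Matroid α} (h : M.Finitary) (Z : Set α) : (M ↾ Z).Finitary := by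
  refine ⟨fun I hI => ?_⟩
  rw [Matroid.restrict_indep_iff]
  constructor
  · apply M.indep_of_forall_finite_subset_indep
    intro J hJ hf
    exact (Matroid.restrict_indep_iff.1 (hI J hJ hf)).1
  · intro x hx
    exact (Matroid.restrict_indep_iff.1 (hI {x} (by simpa using hx) (by simp))).2 rfl

/-- finitary or cofinitary -/
def Good (M : Matroid α) : Prop := M.Finitary ∨ M✶.Finitary

theorem Good.dual {M : Matroid α} (h : Good M) : Good M✶ := by
  rcases h with h | h
  · right; rw [Matroid.dual_dual]; exact h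
  · left; exact h

theorem Good.contract {M : Matroid α} (h : Good M) (C : Set α) : Good (M ／ C) := by
  rcases h with h | h
  · left; infer_instance
  · right
    rw [Matroid.dual_contract, Matroid.delete_eq_restrict]
    exact restrict_finitary h _

theorem Good.restrict {M : Matroid α} (h : Good M) {Z : Set α} (hZ : Z ⊆ M.E) :
    Good (M ↾ Z) := by
  rcases h with h | h
  · left; exact restrict_finitary h _
  · right
    have e : M ↾ Z = M ＼ (M.E \ Z) := by
      rw [Matroid.delete_eq_restrict, sdiff_sdiff_cancel_left hZ]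
    rw [e, Matroid.dual_delete]
    infer_instance

/-- The system of all finitary or cofinitary matroids. -/
def sys (W : Set α) : Set (Set (Set α)) :=
  {I | ∃ M : Matroid α, M.E = W ∧ Good M ∧ I = ind M}

theorem sys_admissible : Admissible (sys (α := α)) where
  pre := by
    rintro W I ⟨M, rfl, _, rfl⟩
    exact pre_ind M
  restr_mem := by
    rintro W Z hZ I ⟨M, rfl, hM, rfl⟩
    exact ⟨M ↾ Z, rfl, hM.restrict hZ, restr_ind M Z⟩
  contr_exists := by
    rintro W Z hZ I ⟨M, rfl, hM, rfl⟩
    obtain ⟨B, hB⟩ := M.exists_isBasis (M.E \ Z) sdiff_subset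
    exact ⟨B, (isBasisOf_restr sdiff_subset).2 hB⟩
  contr_indep := by
    rintro W Z hZ I ⟨M, rfl, hM, rfl⟩ B B' hB hB'
    rw [isBasisOf_restr sdiff_subset] at hB hB'
    rw [contr_ind hZ hB, contr_ind hZ hB']
  contr_mem := by
    rintro W Z hZ I ⟨M, rfl, hM, rfl⟩ B hB
    rw [isBasisOf_restr sdiff_subset] at hB
    rw [contr_ind hZ hB]
    exact ⟨_, by rw [Matroid.contract_ground, sdiff_sdiff_cancel_left hZ], hM.contract _, rfl⟩
  dual_mem := by
    rintro W I ⟨M, rfl, hM, rfl⟩
    exact ⟨M✶, rfl, hM.dual, dual_ind M⟩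
  dual_dual := by
    rintro W I ⟨M, rfl, hM, rfl⟩
    rw [dual_ind]
    have := dual_ind M✶
    rw [Matroid.dual_ground, Matroid.dual_dual] at this
    exact this

theorem sys_contains (W : Set α) (I : Set (Set α)) (h : IndependenceSpace W I) :
    I ∈ sys W := by
  obtain ⟨⟨h1, h2, h3, h4⟩, h5⟩ := h
  let N : IndepMatroid α := IndepMatroid.ofFinitaryCardAugment W (fun X => X ∈ I) h2
    (fun X Y hY hXY => h3 Y hY X hXY)
    (fun X Y hX fX hY fY hlt => by
      obtain ⟨e, he, hI⟩ := h4 X hX Y hY fX fY hlt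
      exact ⟨e, he.1, he.2, by rw [Set.union_singleton] at hI; exact hI⟩)
    (fun X hX => by
      refine h5 X ?_ hX
      intro x hx
      exact h1 {x} (hX {x} (by simpa using hx) (by simp)) rfl)
    h1
  refine ⟨N.matroid, rfl, Or.inl ?_, rfl⟩
  exact IndepMatroid.ofFinitaryCardAugment_finitary _ _ _ _ _ _ _

/-! ### A B-matroid that is neither finitary nor cofinitary -/

/-- the rank-one uniform matroid on `A` -/
def rk1 (A : Set α) : Matroid α :=
  (IndepMatroid.ofFinitaryCardAugment A (fun X => X ⊆ A ∧ X.Subsingleton)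
    ⟨empty_subset _, subsingleton_empty⟩
    (fun X Y hY hXY => ⟨hXY.trans hY.1, hY.2.anti hXY⟩)
    (fun X Y hX fX hY fY hlt => by
      have hYn : Y.ncard ≤ 1 := by
        rw [Set.ncard_le_one fY]
        exact fun a ha b hb => hY.2 ha hb
      have hX0 : X.ncard = 0 := by omega
      have hX0' : X = ∅ := (Set.ncard_eq_zero fX).1 hX0
      have hY1 : Y.ncard ≠ 0 := by omega
      obtain ⟨e, he⟩ := Set.nonempty_of_ncard_ne_zero hY1
      subst hX0'
      refine ⟨e, he, by simp, ?_, ?_⟩
      · intro x hx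
        rw [Set.mem_insert_iff] at hx
        rcases hx with rfl | hx
        · exact hY.1 he
        · exact absurd hx (by simp)
      · simp)
    (fun X hX => by
      refine ⟨fun x hx => (hX {x} (by simpa using hx) (by simp)).1 rfl, ?_⟩
      intro a ha b hb
      exact (hX {a, b} (by
        intro x hx
        rcases hx with rfl | hx
        · exact ha
        · rw [Set.mem_singleton_iff] at hx; rw [hx]; exact hb) (by simp)).2 (by simp) (by simp))
    (fun X hX => hX.1)).matroid

@[simp] theorem rk1_ground (A : Set α) : (rk1 A).E = A := rfl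

theorem rk1_indep (A X : Set α) : (rk1 A).Indep X ↔ X ⊆ A ∧ X.Subsingleton := Iff.rfl

theorem rk1_base (A : Set α) (b : α) (hb : b ∈ A) : (rk1 A).IsBase {b} := by
  rw [Matroid.isBase_iff_maximal_indep]
  refine ⟨(rk1_indep _ _).2 ⟨by simpa using hb, subsingleton_singleton⟩, ?_⟩
  intro X hX hbX x hx
  have := ((rk1_indep _ _).1 hX).2 hx (hbX rfl)
  rw [this]; rfl

theorem rk1_dual_indep (A X : Set α) :
    (rk1 A)✶.Indep X ↔ X ⊆ A ∧ ((∃ b ∈ A, b ∉ X) ∨ A = ∅) := by
  rw [Matroid.dual_indep_iff_exists', rk1_ground]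
  refine and_congr_right fun hX => ?_
  constructor
  · rintro ⟨B, hB, hd⟩
    by_cases hA : A = ∅
    · exact Or.inr hA
    · left
      obtain ⟨a, ha⟩ := Set.nonempty_iff_ne_empty.2 hA
      by_cases hB0 : B = ∅
      · exfalso
        subst hB0
        have h1 : (rk1 A).Indep {a} :=
          (rk1_indep _ _).2 ⟨by simpa using ha, subsingleton_singleton⟩
        have := hB.eq_of_subset_indep h1 (empty_subset _)
        exact (Set.singleton_ne_empty a) this.symm
      · obtain ⟨b, hb⟩ := Set.nonempty_iff_ne_empty.2 hB0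
        exact ⟨b, hB.subset_ground hb, fun hbX => Set.disjoint_left.1 hd hbX hb⟩
  · rintro (⟨b, hb, hbX⟩ | hA)
    · refine ⟨{b}, rk1_base A b hb, ?_⟩
      simpa using hbX
    · obtain ⟨B, hB⟩ := (rk1 A).exists_isBase
      refine ⟨B, hB, ?_⟩
      have hXe : X = ∅ := by rw [hA] at hX; exact Set.subset_empty_iff.1 hX
      rw [hXe]; simp

theorem exists_split [Infinite α] : ∃ A : Set α, A.Infinite ∧ Aᶜ.Infinite := by
  let f : ℕ ↪ α := Infinite.natEmbedding α
  refine ⟨Set.range (fun n => f (2 * n)), ?_, ?_⟩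
  · apply Set.infinite_range_of_injective
    intro a b hab
    have := f.injective hab
    omega
  · refine Set.Infinite.mono ?_ (Set.infinite_range_of_injective (f := fun n => f (2 * n + 1)) ?_)
    · rintro _ ⟨n, rfl⟩ ⟨k, hk⟩
      have := f.injective hk
      omega
    · intro a b hab
      have := f.injective hab
      omega

/-- the direct sum of a rank-one matroid on `A` and a corank-one matroid on the complement -/
def mix (A : Set α) : Matroid α :=
  (rk1 A).disjointSum (rk1 Aᶜ)✶ (by
    rw [Matroid.dual_ground, rk1_ground, rk1_ground]; exact disjoint_compl_right)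

theorem mix_ground (A : Set α) : (mix A).E = univ := by
  unfold mix
  rw [Matroid.disjointSum_ground_eq, Matroid.dual_ground, rk1_ground, rk1_ground]
  exact union_compl_self A

theorem mix_indep (A X : Set α) (hA : Aᶜ.Nonempty) :
    (mix A).Indep X ↔ (X ∩ A).Subsingleton ∧ ¬ Aᶜ ⊆ X := by
  unfold mix
  rw [Matroid.disjointSum_indep_iff, rk1_indep, rk1_dual_indep, Matroid.dual_ground, rk1_ground,
    rk1_ground]
  constructor
  · rintro ⟨⟨_, h1⟩, ⟨_, h2⟩, _⟩
    refine ⟨h1, ?_⟩
    rcases h2 with ⟨b, hb, hbX⟩ | h2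
    · exact fun h => hbX ⟨h hb, hb⟩
    · exact absurd h2 hA.ne_empty
  · rintro ⟨h1, h2⟩
    rw [Set.not_subset] at h2
    obtain ⟨b, hb, hbX⟩ := h2
    refine ⟨⟨inter_subset_right, h1⟩, ⟨inter_subset_right, Or.inl ⟨b, hb, fun h => hbX h.1⟩⟩, ?_⟩
    rw [union_compl_self]; exact subset_univ _

theorem mix_not_good (A : Set α) (hA : A.Infinite) (hA' : Aᶜ.Infinite) : ¬ Good (mix A) := by
  have hne := hA'.nonempty
  rintro (h | h)
  · have : (mix A).Indep Aᶜ := by
      apply (mix A).indep_of_forall_finite_subset_indep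
      intro J hJ hf
      rw [mix_indep _ _ hne]
      constructor
      · rw [show J ∩ A = ∅ from ?_]
        · exact subsingleton_empty
        · ext x
          simp only [mem_inter_iff, mem_empty_iff_false, iff_false, not_and]
          exact fun hx => hJ hx
      · exact fun hsub => hA' (hf.subset hsub)
    rw [mix_indep _ _ hne] at this
    exact this.2 Subset.rfl
  · have hind : (mix A)✶.Indep A := by
      apply (mix A)✶.indep_of_forall_finite_subset_indep
      intro J hJ hf
      obtain ⟨a, ha, haJ⟩ := hA.exists_notMem_finite hf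
      obtain ⟨b, hb⟩ := hne
      have hi : (mix A).Indep (insert a (Aᶜ \ {b})) := by
        rw [mix_indep _ _ ⟨b, hb⟩]
        constructor
        · intro x hx y hy
          have h1 : ∀ z, z ∈ insert a (Aᶜ \ {b}) ∩ A → z = a := by
            rintro z ⟨hz | hz, hzA⟩
            · exact hz
            · exact absurd hzA hz.1
          rw [h1 x hx, h1 y hy]
        · intro hsub
          rcases hsub hb with h | h
          · exact hb (h ▸ ha)
          · exact h.2 rfl
      obtain ⟨B, hB, hBs⟩ := hi.exists_isBase_superset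
      rw [Matroid.dual_indep_iff_exists']
      refine ⟨by rw [mix_ground]; exact subset_univ _, B, hB, ?_⟩
      rw [Set.disjoint_left]
      intro x hxJ hxB
      have hs := ((mix_indep _ _ ⟨b, hb⟩).1 hB.indep).1
      have : x = a := hs ⟨hxB, hJ hxJ⟩ ⟨hBs (Or.inl rfl), ha⟩
      exact haJ (this ▸ hxJ)
    rw [Matroid.dual_indep_iff_exists'] at hind
    obtain ⟨_, B, hB, hd⟩ := hind
    obtain ⟨a, ha⟩ := hA.nonempty
    have haB : a ∉ B := Set.disjoint_left.1 hd ha
    have hBi := (mix_indep _ _ hne).1 hB.indep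
    have hi : (mix A).Indep (insert a B) := by
      rw [mix_indep _ _ hne]
      constructor
      · intro x hx y hy
        have h1 : ∀ z, z ∈ insert a B ∩ A → z = a := by
          rintro z ⟨hz | hz, hzA⟩
          · exact hz
          · exact absurd hz (Set.disjoint_left.1 hd hzA)
        rw [h1 x hx, h1 y hy]
      · intro hsub
        apply hBi.2
        intro x hx
        rcases hsub hx with h | h
        · exact absurd (h ▸ ha) hx
        · exact h
    have := hB.eq_of_subset_indep hi (subset_insert _ _)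
    exact haB (this ▸ mem_insert _ _)

theorem ind_injective {M N : Matroid α} (hE : M.E = N.E) (h : ind M = ind N) : M = N := by
  refine Matroid.ext_indep hE fun I _ => ?_
  have : I ∈ ind M ↔ I ∈ ind N := by rw [h]
  exact this

/-- For every infinite set `S` (a type `α`) there is an admissible system `D` on `S` such that
each `D W` contains all independence spaces on `W`, and a B-matroid on `S` that is not in
`D S`. So the assertion in the question is false, for every infinite `S`. -/
theorem result (α : Type u) [Infinite α] :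
    ∃ D : Set α → Set (Set (Set α)), Admissible D ∧
      (∀ W I, IndependenceSpace W I → I ∈ D W) ∧
      ∃ (W : Set α) (I : Set (Set α)), BMatroid W I ∧ I ∉ D W := by
  refine ⟨sys, sys_admissible, sys_contains, univ, ?_⟩
  obtain ⟨A, hA, hA'⟩ := exists_split (α := α)
  refine ⟨ind (mix A), ?_, ?_⟩
  · have := bMatroid_ind (mix A)
    rw [mix_ground] at this
    exact this
  · rintro ⟨M, hME, hM, hI⟩
    have : mix A = M := ind_injective (by rw [mix_ground, hME]) hI
    rw [← this] at hM
    exact mix_not_good A hA hA' hM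

end Pool.Agent.Results.MP_cb2a9f_co.AdmissibleNotAll
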